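import Pool.Agent.H21.L.R_seed8.TH941.Half

/-! The newform of an elliptic curve: the squares of the coefficients are a multiplicative function
with bounded values at prime powers; Rankin-Selberg for the primes. -/

set_option autoImplicit false

namespace Pool.Agent.TH941

open MeasureTheory Filter Topology Set CongruenceSubgroup Classical
open scoped MatrixGroups
open Pool.Agent.W165.RS (ac ac_zero)
open Pool.Agent.W263.BSD (pointCount GoodPrime rsSum stp)

/-- Hecke relations and bounds -/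
structure Hecke {N : ℕ} (f : CuspForm (Gamma0 N : Subgroup (GL (Fin 2) ℝ)) 2) : Prop where
  one : ac f 1 = 1
  real : ∀ n, (ac f n).im = 0
  mul : ∀ m n : ℕ, Nat.Coprime m n → ac f (m * n) = ac f m * ac f n
  pow : ∀ p j : ℕ, p.Prime → ac f (p ^ (j + 2)) = ac f p * ac f (p ^ (j + 1)) -
      (if p ∣ N then 0 else (p : ℂ) * ac f (p ^ j))
  good : ∀ p : ℕ, p.Prime → ¬ p ∣ N → ‖ac f p‖ ≤ 2 * Real.sqrt p
  bad : ∀ p : ℕ, p.Prime → p ∣ N → ‖ac f p‖ ≤ 1

variable {N : ℕ} [NeZero N] {f : CuspForm (Gamma0 N : Subgroup (GL (Fin 2) ℝ)) 2}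

/-- the roots of `X² - a X + q` for real `a` with `|a| ≤ 2 √q` -/
theorem exists_roots' {a q : ℝ} (hq : 0 < q) (h : |a| ≤ 2 * Real.sqrt q) :
    ∃ α β : ℂ, ‖α‖ = Real.sqrt q ∧ ‖β‖ = Real.sqrt q ∧ α + β = a ∧ α * β = q := by
  have h1 : a ^ 2 ≤ 4 * q := by
    have h2 : |a| ^ 2 ≤ (2 * Real.sqrt q) ^ 2 := pow_le_pow_left₀ (abs_nonneg _) h 2
    rw [sq_abs, mul_pow, Real.sq_sqrt hq.le] at h2
    linarith
  set s : ℝ := Real.sqrt (4 * q - a ^ 2) with hs
  have hs2 : s ^ 2 = 4 * q - a ^ 2 := Real.sq_sqrt (by linarith)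
  set z : ℂ := ⟨a / 2, s / 2⟩ with hz
  have hns : Complex.normSq z = q := by
    rw [Complex.normSq_apply, hz]
    simp only
    nlinarith
  have hnorm : ‖z‖ = Real.sqrt q := by
    rw [← hns, Complex.norm_def]
  refine ⟨z, (starRingEnd ℂ) z, hnorm, by rw [Complex.norm_conj]; exact hnorm, ?_, ?_⟩
  · rw [Complex.add_conj, hz]
    push_cast
    ring
  · rw [Complex.mul_conj, hns]

theorem Hecke.prime_pow (hf : Hecke f) {p : ℕ} (hp : p.Prime) (hN : ¬ p ∣ N) (j : ℕ) :
    ‖ac f (p ^ j)‖ ≤ ((j : ℝ) + 1) * Real.sqrt p ^ j := by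
  have hp0 : (0 : ℝ) < p := by exact_mod_cast hp.pos
  have him : ac f p = ((ac f p).re : ℂ) := by
    apply Complex.ext
    · simp
    · simp [hf.real p]
  have hb := hf.good p hp hN
  rw [him, Complex.norm_real, Real.norm_eq_abs] at hb
  obtain ⟨α, β, hα, hβ, hs, hm⟩ := exists_roots' hp0 hb
  -- closed form
  have hcl : ∀ j : ℕ, ac f (p ^ j) = ∑ i ∈ Finset.range (j + 1), α ^ i * β ^ (j - i) ∧
      ac f (p ^ (j + 1)) = ∑ i ∈ Finset.range (j + 2), α ^ i * β ^ (j + 1 - i) := by
    intro j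
    induction j with
    | zero =>
      constructor
      · simp [hf.one]
      · rw [zero_add, pow_one, him, ← hs, Finset.sum_range_succ, Finset.sum_range_one]
        simp
        ring
    | succ j ih =>
      refine ⟨ih.2, ?_⟩
      have h1 := hf.pow p j hp
      rw [if_neg hN, ih.1, ih.2, him, ← hs] at h1
      rw [show j + 1 + 1 = j + 2 by ring, h1]
      have hm' : (p : ℂ) = α * β := by rw [hm]; simp
      rw [hm']
      -- `(α + β) S_{j+1} - αβ S_j = S_{j+2}`
      have g1 : ∀ n : ℕ, (α - β) * ∑ i ∈ Finset.range (n + 1), α ^ i * β ^ (n - i) =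
          α ^ (n + 1) - β ^ (n + 1) := by
        intro n
        have := Commute.mul_geom_sum₂ (Commute.all α β) (n + 1)
        simpa using this
      have e1 : ∑ i ∈ Finset.range (j + 2), α ^ i * β ^ (j + 1 - i) =
          α * (∑ i ∈ Finset.range (j + 1), α ^ i * β ^ (j - i)) + β ^ (j + 1) := by
        rw [Finset.sum_range_succ', Finset.mul_sum]
        congr 1
        · refine Finset.sum_congr rfl fun i hi => ?_
          rw [Nat.add_sub_add_right]
          ring
        · simp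
      have e2 : ∑ i ∈ Finset.range (j + 3), α ^ i * β ^ (j + 2 - i) =
          α * (∑ i ∈ Finset.range (j + 2), α ^ i * β ^ (j + 1 - i)) + β ^ (j + 2) := by
        rw [Finset.sum_range_succ' _ (j + 2), Finset.mul_sum]
        congr 1
        · refine Finset.sum_congr rfl fun i hi => ?_
          rw [show j + 2 - (i + 1) = j + 1 - i by omega]
          ring
        · simp
      have e3 : β * (∑ i ∈ Finset.range (j + 2), α ^ i * β ^ (j + 1 - i)) -
          α * β * (∑ i ∈ Finset.range (j + 1), α ^ i * β ^ (j - i)) = β ^ (j + 2) := by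
        rw [e1]
        ring
      rw [show j + 1 + 1 + 1 = j + 3 by ring] at *
      rw [e2]
      linear_combination e3
  rw [(hcl j).1]
  refine (norm_sum_le _ _).trans ?_
  have h2 : ∀ i ∈ Finset.range (j + 1), ‖α ^ i * β ^ (j - i)‖ ≤ Real.sqrt p ^ j := by
    intro i hi
    rw [norm_mul, norm_pow, norm_pow, hα, hβ, ← pow_add]
    refine le_of_eq ?_
    congr 1
    have := Finset.mem_range.1 hi
    omega
  refine (Finset.sum_le_card_nsmul _ _ _ h2).trans (le_of_eq ?_)
  rw [Finset.card_range, nsmul_eq_mul]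
  push_cast
  ring

theorem Hecke.prime_pow_bad (hf : Hecke f) {p : ℕ} (hp : p.Prime) (hN : p ∣ N) (j : ℕ) :
    ‖ac f (p ^ j)‖ ≤ 1 := by
  induction j with
  | zero => simp [hf.one]
  | succ j ih =>
    rcases Nat.eq_zero_or_pos j with rfl | hj
    · rw [zero_add, pow_one]; exact hf.bad p hp hN
    · obtain ⟨i, rfl⟩ : ∃ i, j = i + 1 := ⟨j - 1, by omega⟩
      have h1 := hf.pow p i hp
      rw [if_pos hN, sub_zero] at h1
      rw [show i + 1 + 1 = i + 2 by ring, h1, norm_mul]
      calc ‖ac f p‖ * ‖ac f (p ^ (i + 1))‖ ≤ 1 * 1 :=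
            mul_le_mul (hf.bad p hp hN) ih (norm_nonneg _) zero_le_one
        _ = 1 := one_mul 1

theorem Hecke.mult (hf : Hecke f) : Mult (gg f) where
  zero := by unfold gg; simp
  one := by unfold gg; rw [hf.one]; simp
  nonneg := gg_nonneg f
  mul := fun m n h => by
    unfold gg
    rw [hf.mul m n h, norm_mul]
    push_cast
    rw [mul_pow, mul_div_mul_comm]
  le := fun p e hp => by
    have hp0 : (0 : ℝ) < p := by exact_mod_cast hp.pos
    unfold gg
    push_cast
    rw [div_le_iff₀ (by positivity)]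
    by_cases hN : p ∣ N
    · have h1 := hf.prime_pow_bad hp hN e
      have h2 : ‖ac f (p ^ e)‖ ^ 2 ≤ 1 := pow_le_one₀ (norm_nonneg _) h1
      have h3 : (1 : ℝ) ≤ (p : ℝ) ^ e := one_le_pow₀ (by exact_mod_cast hp.one_le)
      have h4 : (1 : ℝ) ≤ ((e : ℝ) + 1) ^ 2 := by
        have : (0 : ℝ) ≤ e := Nat.cast_nonneg e
        nlinarith
      calc ‖ac f (p ^ e)‖ ^ 2 ≤ 1 * 1 := by linarith
        _ ≤ _ := mul_le_mul h4 h3 zero_le_one (by positivity)
    · have h1 := hf.prime_pow hp hN e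
      have h2 := pow_le_pow_left₀ (norm_nonneg _) h1 2
      refine h2.trans (le_of_eq ?_)
      rw [mul_pow, ← pow_mul, mul_comm e 2, pow_mul, Real.sq_sqrt hp0.le]

/-- `(g(p) - 1) / p` at the primes -/
noncomputable def cr (f : CuspForm (Gamma0 N : Subgroup (GL (Fin 2) ℝ)) 2) (n : ℕ) : ℝ :=
  if n.Prime then (gg f n - 1) / n else 0

theorem Hecke.ps (hf : Hecke f) : PS (cr f) 4 where
  pos := by norm_num
  le := fun n => by
    unfold cr
    split_ifs with h
    · rw [abs_div, Nat.abs_cast]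
      refine div_le_div_of_nonneg_right ?_ (Nat.cast_nonneg _)
      have h1 := hf.mult.g_le h
      have h2 := gg_nonneg f n
      rw [abs_le]
      constructor <;> linarith
    · rw [abs_zero]; positivity
  np := fun n h => by unfold cr; rw [if_neg h]

theorem Hecke.cr_limit (hf : Hecke f) :
    ∃ C : ℝ, Tendsto (fun w : ℝ => ∑' n : ℕ, cr f n * (n : ℝ) ^ (-w)) (𝓝[>] 0) (𝓝 C) := by
  obtain ⟨hsum, c, hc, hlim⟩ := rs_form f hf.one
  obtain ⟨C, hC⟩ := hf.mult.psum_limit hsum hc hlim
  refine ⟨C, ?_⟩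
  have h1 : Tendsto (fun w : ℝ => 1 + w) (𝓝[>] 0) (𝓝[>] 1) := by
    rw [tendsto_nhdsWithin_iff]
    constructor
    · have : Continuous fun w : ℝ => 1 + w := by fun_prop
      have := this.tendsto 0
      rw [add_zero] at this
      exact this.mono_left nhdsWithin_le_nhds
    · filter_upwards [self_mem_nhdsWithin] with w hw
      have hw0 : (0 : ℝ) < w := hw
      show (1 : ℝ) < 1 + w
      linarith
  refine (hC.comp h1).congr' ?_
  filter_upwards [self_mem_nhdsWithin] with w hw
  have hw0 : (0 : ℝ) < w := hw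
  simp only [Function.comp_apply]
  unfold psum
  rw [← (hf.mult.psum_summable (show 1 < 1 + w by linarith)).tsum_sub
    (mult_one.psum_summable (show 1 < 1 + w by linarith))]
  refine tsum_congr fun n => ?_
  unfold cr
  split_ifs with h h2
  · exact absurd h2 h.ne_zero
  · have hn : (0 : ℝ) < n := by exact_mod_cast h.pos
    rw [show -(1 + w) = -w - 1 by ring, Real.rpow_sub_one hn.ne']
    ring
  · simp

/-- `∑_{√x < p ≤ x} (c(p)²/p - 1)/p → 0` -/
theorem Hecke.half (hf : Hecke f) : Tendsto (Pool.Agent.TH941.hf (cr f)) atTop (𝓝 0) := by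
  obtain ⟨C, hC⟩ := hf.cr_limit
  exact hf.ps.half_tendsto hC

/-- `f` belongs to the elliptic curve `y² = x³ + a x + b` -/
def Belongs (a b : ℤ) (f : CuspForm (Gamma0 N : Subgroup (GL (Fin 2) ℝ)) 2) : Prop :=
  ∀ p : ℕ, GoodPrime a b p → ac f p = (p : ℂ) - (pointCount a b p : ℂ)

theorem sqrt_lt_iff' {x : ℝ} (hx : 1 < x) {p : ℕ} (hp : p ≠ 0) :
    √x < p ↔ ¬ (Real.log p ≤ Real.log x / 2) := by
  have hp0 : (0 : ℝ) < p := by exact_mod_cast Nat.pos_of_ne_zero hp
  rw [not_le, ← Real.log_sqrt (by linarith)]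
  exact (Real.log_lt_log_iff (Real.sqrt_pos.mpr (by linarith)) hp0).symm

/-- **The theorem of Rankin and Selberg for the primes.** -/
theorem Hecke.rsSum_tendsto (hf : Hecke f) {a b : ℤ} (hΔ : 4 * a ^ 3 + 27 * b ^ 2 ≠ 0)
    (hb : Belongs a b f) : Tendsto (rsSum a b) atTop (𝓝 0) := by
  obtain ⟨D, hD⟩ := Pool.Agent.W263.BSD.good_of_large hΔ
  refine (hf.half.comp Real.tendsto_log_atTop).congr' ?_
  filter_upwards [eventually_gt_atTop 1, eventually_ge_atTop ((D : ℝ) ^ 2)] with x hx1 hxD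
  have hx0 : 0 < x := by linarith
  simp only [Function.comp_apply]
  unfold Pool.Agent.TH941.hf Pool.Agent.W263.BSD.stp rsSum
  rw [Real.exp_log hx0]
  have hsub : Finset.range (⌊Real.exp (Real.log x / 2)⌋₊ + 1) ⊆ Finset.range (⌊x⌋₊ + 1) := by
    intro p hp
    rw [Finset.mem_range] at hp ⊢
    have : ⌊Real.exp (Real.log x / 2)⌋₊ ≤ ⌊x⌋₊ := by
      refine Nat.floor_le_floor ?_
      have hl := Real.log_pos hx1
      calc Real.exp (Real.log x / 2) ≤ Real.exp (Real.log x) := Real.exp_le_exp.mpr (by linarith)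
        _ = x := Real.exp_log hx0
    omega
  rw [← Finset.sum_sdiff hsub, add_sub_cancel_right, Finset.sum_filter]
  have h1 : ∀ p ∈ Finset.range (⌊x⌋₊ + 1), (if GoodPrime a b p ∧ √x < p then
      (((p : ℝ) - pointCount a b p) ^ 2 - p) / (p : ℝ) ^ 2 else 0) =
      if p ∈ Finset.range (⌊x⌋₊ + 1) \ Finset.range (⌊Real.exp (Real.log x / 2)⌋₊ + 1) then
        cr f p else 0 := by
    intro p hp
    rcases Nat.eq_zero_or_pos p with rfl | hp0
    · have h2 : ¬ GoodPrime a b 0 := fun h => Nat.not_prime_zero h.1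
      rw [if_neg (fun h => h2 h.1)]
      unfold cr
      rw [if_neg Nat.not_prime_zero, ite_self]
    have hmem : p ∈ Finset.range (⌊x⌋₊ + 1) \ Finset.range (⌊Real.exp (Real.log x / 2)⌋₊ + 1) ↔
        √x < p := by
      rw [Finset.mem_sdiff, Pool.Agent.W263.BSD.stp_mem hp0.ne', sqrt_lt_iff' hx1 hp0.ne']
      exact ⟨fun h => h.2, fun h => ⟨hp, h⟩⟩
    by_cases hlt : √x < p
    · rw [if_pos (hmem.2 hlt)]
      by_cases hpr : p.Prime
      · have hDp : D < p := by
          have h3 : (D : ℝ) < p := by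
            refine lt_of_le_of_lt ?_ hlt
            rw [Real.le_sqrt (Nat.cast_nonneg _) hx0.le]
            exact hxD
          exact_mod_cast h3
        have hg := hD p hpr hDp
        rw [if_pos ⟨hg, hlt⟩]
        unfold cr gg
        rw [if_pos hpr, hb p hg]
        have h4 : ‖(p : ℂ) - (pointCount a b p : ℂ)‖ ^ 2 = ((p : ℝ) - pointCount a b p) ^ 2 := by
          have : (p : ℂ) - (pointCount a b p : ℂ) = (((p : ℝ) - pointCount a b p : ℝ) : ℂ) := by
            push_cast; ring
          rw [this, Complex.norm_real, Real.norm_eq_abs, sq_abs]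
        rw [h4]
        have hp' : (p : ℝ) ≠ 0 := by exact_mod_cast hp0.ne'
        field_simp
      · rw [if_neg (fun h => hpr h.1.1)]
        unfold cr
        rw [if_neg hpr]
    · rw [if_neg (fun h => hlt h.2), if_neg (fun h => hlt (hmem.1 h))]
  rw [Finset.sum_congr rfl h1, ← Finset.sum_filter]
  congr 1
  ext p
  simp only [Finset.mem_filter, Finset.mem_sdiff]
  tauto

end Pool.Agent.TH941
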