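import Mathlib

/-! Dirichlet series of multiplicative functions with bounded values at prime powers: the
logarithm is the sum over the primes up to a convergent correction. -/

set_option autoImplicit false

namespace Pool.Agent.TH941

open Filter Topology

/-- a nonnegative multiplicative function with `g (p ^ e) ≤ (e + 1)²` -/
structure Mult (g : ℕ → ℝ) : Prop where
  zero : g 0 = 0
  one : g 1 = 1
  nonneg : ∀ n, 0 ≤ g n
  mul : ∀ m n : ℕ, Nat.Coprime m n → g (m * n) = g m * g n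
  le : ∀ p e : ℕ, p.Prime → g (p ^ e) ≤ ((e : ℝ) + 1) ^ 2

/-- `∑ g(p^e) x^e` -/
noncomputable def loc (g : ℕ → ℝ) (p : ℕ) (x : ℝ) : ℝ := ∑' e : ℕ, g (p ^ e) * x ^ e

/-- `∑ (e+3)² 2^{-e}` -/
noncomputable def KK : ℝ := ∑' e : ℕ, ((e : ℝ) + 3) ^ 2 * (1 / 2 : ℝ) ^ e

theorem summable_aux (k : ℕ) : Summable fun e : ℕ => ((e : ℝ) + k) ^ 2 * (1 / 2 : ℝ) ^ e := by
  have h2 := summable_pow_mul_geometric_of_norm_lt_one 2 (r := (1 / 2 : ℝ)) (by norm_num)
  have h1 := summable_pow_mul_geometric_of_norm_lt_one 1 (r := (1 / 2 : ℝ)) (by norm_num)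
  have h0 := summable_pow_mul_geometric_of_norm_lt_one 0 (r := (1 / 2 : ℝ)) (by norm_num)
  have := (h2.add (h1.mul_left (2 * (k : ℝ)))).add (h0.mul_left ((k : ℝ) ^ 2))
  refine this.congr fun e => ?_
  simp only [pow_one, pow_zero, one_mul]
  ring

theorem KK_nonneg : 0 ≤ KK := tsum_nonneg fun e => by positivity

variable {g : ℕ → ℝ}

theorem Mult.g2 (hg : Mult g) {p : ℕ} (hp : p.Prime) {x : ℝ} (hx : 0 ≤ x) (hx2 : x ≤ 1 / 2) (e : ℕ) :
    g (p ^ e) * x ^ e ≤ ((e : ℝ) + 1) ^ 2 * (1 / 2 : ℝ) ^ e :=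
  mul_le_mul (hg.le p e hp) (pow_le_pow_left₀ hx hx2 e) (by positivity) (by positivity)

theorem Mult.summable_loc (hg : Mult g) {p : ℕ} (hp : p.Prime) {x : ℝ} (hx : 0 ≤ x)
    (hx2 : x ≤ 1 / 2) : Summable fun e : ℕ => g (p ^ e) * x ^ e := by
  refine Summable.of_nonneg_of_le (fun e => mul_nonneg (hg.nonneg _) (by positivity))
    (hg.g2 hp hx hx2) ?_
  simpa using summable_aux 1

theorem Mult.loc_eq (hg : Mult g) {p : ℕ} (hp : p.Prime) {x : ℝ} (hx : 0 ≤ x)
    (hx2 : x ≤ 1 / 2) : ∃ T : ℝ, 0 ≤ T ∧ T ≤ KK ∧ loc g p x = 1 + g p * x + x ^ 2 * T := by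
  have hs := hg.summable_loc hp hx hx2
  have hs2 : Summable fun e : ℕ => g (p ^ (e + 2)) * x ^ e := by
    refine Summable.of_nonneg_of_le (fun e => mul_nonneg (hg.nonneg _) (by positivity))
      (fun e => ?_) (summable_aux 3)
    refine mul_le_mul ?_ (pow_le_pow_left₀ hx hx2 e) (by positivity) (by positivity)
    refine (hg.le p (e + 2) hp).trans (le_of_eq ?_)
    push_cast; ring
  refine ⟨∑' e : ℕ, g (p ^ (e + 2)) * x ^ e, tsum_nonneg fun e =>
    mul_nonneg (hg.nonneg _) (by positivity), ?_, ?_⟩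
  · refine hs2.tsum_le_tsum (fun e => ?_) (by simpa using summable_aux 3)
    refine mul_le_mul ?_ (pow_le_pow_left₀ hx hx2 e) (by positivity) (by positivity)
    refine (hg.le p (e + 2) hp).trans (le_of_eq ?_)
    push_cast; ring
  · unfold loc
    rw [← hs.sum_add_tsum_nat_add 2, Finset.sum_range_succ, Finset.sum_range_one, ← tsum_mul_left]
    simp only [pow_zero, hg.one, mul_one, pow_one]
    congr 1
    refine tsum_congr fun e => ?_
    ring

theorem Mult.g_le (hg : Mult g) {p : ℕ} (hp : p.Prime) : g p ≤ 4 := by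
  have := hg.le p 1 hp
  rw [pow_one] at this
  norm_num at this
  exact this

theorem Mult.loc_ge (hg : Mult g) {p : ℕ} (hp : p.Prime) {x : ℝ} (hx : 0 ≤ x)
    (hx2 : x ≤ 1 / 2) : 1 ≤ loc g p x := by
  obtain ⟨T, h0, _, h2⟩ := hg.loc_eq hp hx hx2
  rw [h2]
  have := mul_nonneg (hg.nonneg p) hx
  have := mul_nonneg (sq_nonneg x) h0
  linarith

theorem Mult.log_loc (hg : Mult g) {p : ℕ} (hp : p.Prime) {x : ℝ} (hx : 0 ≤ x)
    (hx2 : x ≤ 1 / 2) : |Real.log (loc g p x) - g p * x| ≤ (4 + KK) ^ 2 * x ^ 2 := by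
  obtain ⟨T, h0, h1, h2⟩ := hg.loc_eq hp hx hx2
  have hK := KK_nonneg
  have hg0 := hg.nonneg p
  have hg4 := hg.g_le hp
  set δ := g p * x + x ^ 2 * T with hδ
  have hδ0 : 0 ≤ δ := by positivity
  have hL : loc g p x = 1 + δ := by rw [h2, hδ]; ring
  have hδ1 : δ ≤ (4 + KK) * x := by
    have e1 : g p * x ≤ 4 * x := mul_le_mul_of_nonneg_right hg4 hx
    have e2 : x ^ 2 * T ≤ KK * x := by
      calc x ^ 2 * T ≤ x ^ 2 * KK := mul_le_mul_of_nonneg_left h1 (sq_nonneg x)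
        _ = (x * KK) * x := by ring
        _ ≤ (1 * KK) * x := by
            refine mul_le_mul_of_nonneg_right (mul_le_mul_of_nonneg_right (by linarith) hK) hx
        _ = KK * x := by ring
    linarith
  have hδ2 : δ ^ 2 ≤ (4 + KK) ^ 2 * x ^ 2 := by
    rw [← mul_pow]
    exact pow_le_pow_left₀ hδ0 hδ1 2
  have hpos : 0 < 1 + δ := by linarith
  have hup : Real.log (1 + δ) ≤ δ := by
    have := Real.log_le_sub_one_of_pos hpos
    linarith
  have hlow : δ - δ ^ 2 ≤ Real.log (1 + δ) := by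
    have h3 := Real.one_sub_inv_le_log_of_pos hpos
    have h4 : δ - δ ^ 2 ≤ 1 - (1 + δ)⁻¹ := by
      rw [← sub_nonneg]
      have : 1 - (1 + δ)⁻¹ - (δ - δ ^ 2) = δ ^ 3 / (1 + δ) := by
        field_simp
        ring
      rw [this]
      positivity
    linarith
  have e3 : x ^ 2 * T ≤ (4 + KK) ^ 2 * x ^ 2 := by
    have : T ≤ (4 + KK) ^ 2 := by nlinarith
    calc x ^ 2 * T ≤ x ^ 2 * (4 + KK) ^ 2 := mul_le_mul_of_nonneg_left this (sq_nonneg x)
      _ = _ := by ring
  have e4 : 0 ≤ x ^ 2 * T := by positivity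
  rw [hL, abs_le]
  constructor <;> linarith

/-- `p^{-s}` -/
theorem rpow_half {p : ℕ} (hp : p.Prime) {s : ℝ} (hs : 1 ≤ s) :
    0 ≤ (p : ℝ) ^ (-s) ∧ (p : ℝ) ^ (-s) ≤ 1 / 2 ∧ (p : ℝ) ^ (-s) ≤ 1 / p := by
  have hp2 : (2 : ℝ) ≤ p := by exact_mod_cast hp.two_le
  have hp0 : (0 : ℝ) < p := by linarith
  have h1 : (p : ℝ) ^ (-s) ≤ (p : ℝ) ^ (-1 : ℝ) :=
    Real.rpow_le_rpow_of_exponent_le (by linarith) (by linarith)
  rw [Real.rpow_neg_one] at h1
  refine ⟨by positivity, h1.trans ?_, by rw [one_div]; exact h1⟩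
  rw [one_div]
  exact inv_anti₀ (by norm_num) hp2

open Classical in
/-- the correction term at `p` -/
noncomputable def ct (g : ℕ → ℝ) (s : ℝ) (p : ℕ) : ℝ :=
  if p.Prime then Real.log (loc g p ((p : ℝ) ^ (-s))) - g p * (p : ℝ) ^ (-s) else 0

theorem Mult.ct_le (hg : Mult g) {s : ℝ} (hs : 1 ≤ s) (p : ℕ) :
    |ct g s p| ≤ (4 + KK) ^ 2 * (1 / (p : ℝ) ^ 2) := by
  unfold ct
  split_ifs with hp
  · obtain ⟨h0, h1, h2⟩ := rpow_half hp hs
    refine (hg.log_loc hp h0 h1).trans ?_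
    refine mul_le_mul_of_nonneg_left ?_ (by positivity)
    have := pow_le_pow_left₀ h0 h2 2
    rwa [div_pow, one_pow] at this
  · rw [abs_zero]; positivity

theorem summable_inv_sq : Summable fun p : ℕ => (4 + KK) ^ 2 * (1 / (p : ℝ) ^ 2) :=
  (Real.summable_one_div_nat_pow.mpr (by norm_num)).mul_left _

theorem Mult.ct_tendsto (hg : Mult g) :
    Tendsto (fun s : ℝ => ∑' p : ℕ, ct g s p) (𝓝[>] 1) (𝓝 (∑' p : ℕ, ct g 1 p)) := by
  refine tendsto_tsum_of_dominated_convergence summable_inv_sq (fun p => ?_) ?_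
  · unfold ct
    split_ifs with hp
    · have hp0 : (0 : ℝ) < p := by exact_mod_cast hp.pos
      have hx : Tendsto (fun s : ℝ => (p : ℝ) ^ (-s)) (𝓝[>] 1) (𝓝 ((p : ℝ) ^ (-1 : ℝ))) := by
        have hc : Continuous fun s : ℝ => (p : ℝ) ^ (-s) :=
          Real.continuous_const_rpow hp0.ne' |>.comp continuous_neg
        exact (hc.tendsto 1).mono_left nhdsWithin_le_nhds
      have hL : Tendsto (fun s : ℝ => loc g p ((p : ℝ) ^ (-s))) (𝓝[>] 1)
          (𝓝 (loc g p ((p : ℝ) ^ (-1 : ℝ)))) := by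
        unfold loc
        refine tendsto_tsum_of_dominated_convergence (summable_aux 1) (fun e => ?_) ?_
        · exact (hx.pow e).const_mul _
        · filter_upwards [self_mem_nhdsWithin] with s hs e
          have hs1 : (1 : ℝ) ≤ s := le_of_lt hs
          obtain ⟨h0, h1, _⟩ := rpow_half hp hs1
          rw [Real.norm_of_nonneg (mul_nonneg (hg.nonneg _) (by positivity))]
          simpa using hg.g2 hp h0 h1 e
      have hne : loc g p ((p : ℝ) ^ (-1 : ℝ)) ≠ 0 := by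
        obtain ⟨h0, h1, _⟩ := rpow_half hp (le_refl (1 : ℝ))
        have := hg.loc_ge hp h0 h1
        linarith
      exact (hL.log hne).sub (hx.const_mul _)
    · exact tendsto_const_nhds
  · filter_upwards [self_mem_nhdsWithin] with s hs p
    exact hg.ct_le (le_of_lt hs) p

open Classical in
/-- `∑_p g(p) p^{-s}` -/
noncomputable def psum (g : ℕ → ℝ) (s : ℝ) : ℝ :=
  ∑' p : ℕ, if p.Prime then g p * (p : ℝ) ^ (-s) else 0

theorem Mult.psum_summable (hg : Mult g) {s : ℝ} (hs : 1 < s) :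
    Summable fun p : ℕ => if p.Prime then g p * (p : ℝ) ^ (-s) else 0 := by
  have h1 : Summable fun p : ℕ => 4 * (p : ℝ) ^ (-s) :=
    (Real.summable_nat_rpow.mpr (by linarith)).mul_left _
  refine Summable.of_nonneg_of_le (fun p => ?_) (fun p => ?_) h1
  · split_ifs
    · exact mul_nonneg (hg.nonneg _) (by positivity)
    · exact le_rfl
  · split_ifs with hp
    · exact mul_le_mul_of_nonneg_right (hg.g_le hp) (by positivity)
    · positivity

/-- **The logarithm of the Dirichlet series.** -/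
theorem Mult.log_series (hg : Mult g) {s : ℝ} (hs : 1 < s)
    (hsum : Summable fun n : ℕ => g n * (n : ℝ) ^ (-s)) :
    Real.log (∑' n : ℕ, g n * (n : ℝ) ^ (-s)) = psum g s + ∑' p : ℕ, ct g s p := by
  classical
  have hf1 : g 1 * ((1 : ℕ) : ℝ) ^ (-s) = 1 := by rw [hg.one]; simp
  have hmul : ∀ {m n : ℕ}, Nat.Coprime m n → g (m * n) * ((m * n : ℕ) : ℝ) ^ (-s) =
      g m * (m : ℝ) ^ (-s) * (g n * (n : ℝ) ^ (-s)) := by
    intro m n h
    rw [hg.mul m n h, Nat.cast_mul, Real.mul_rpow (Nat.cast_nonneg _) (Nat.cast_nonneg _)]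
    ring
  have hn : Summable fun n : ℕ => ‖g n * (n : ℝ) ^ (-s)‖ := hsum.norm
  have hf0 : g 0 * ((0 : ℕ) : ℝ) ^ (-s) = 0 := by rw [hg.zero, zero_mul]
  have hprod := EulerProduct.eulerProduct_hasProd_mulIndicator
    (f := fun n : ℕ => g n * (n : ℝ) ^ (-s)) hf1 hmul hn hf0
  -- rewrite the factors
  set A : ℕ → ℝ := fun p => if p.Prime then loc g p ((p : ℝ) ^ (-s)) else 1 with hA
  have hfac : (Set.mulIndicator {p : ℕ | Nat.Prime p} fun p =>
      ∑' e, g (p ^ e) * ((p ^ e : ℕ) : ℝ) ^ (-s)) = A := by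
    funext p
    rw [hA, Set.mulIndicator_apply]
    simp only [Set.mem_setOf_eq]
    split_ifs with hp
    · unfold loc
      refine tsum_congr fun e => ?_
      rw [Nat.cast_pow, ← Real.rpow_natCast, ← Real.rpow_mul (Nat.cast_nonneg _),
        ← Real.rpow_natCast, ← Real.rpow_mul (Nat.cast_nonneg _)]
      congr 2
      ring
    · rfl
  rw [hfac] at hprod
  have hApos : ∀ p, 0 < A p := by
    intro p
    rw [hA]
    simp only
    split_ifs with hp
    · obtain ⟨h0, h1, _⟩ := rpow_half hp hs.le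
      linarith [hg.loc_ge hp h0 h1]
    · exact one_pos
  have hlogA : ∀ p, Real.log (A p) = (if p.Prime then g p * (p : ℝ) ^ (-s) else 0) + ct g s p := by
    intro p
    rw [hA]
    unfold ct
    simp only
    split_ifs with hp
    · ring
    · simp
  have hs1 := hg.psum_summable hs
  have hs2 : Summable fun p : ℕ => ct g s p :=
    Summable.of_norm_bounded summable_inv_sq fun p => hg.ct_le hs.le p
  have hlogsum : Summable fun p => Real.log (A p) := by
    simp_rw [hlogA]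
    exact hs1.add hs2
  have h1 := Real.rexp_tsum_eq_tprod hApos hlogsum
  rw [hprod.tprod_eq] at h1
  rw [← h1, Real.log_exp]
  simp_rw [hlogA]
  rw [hs1.tsum_add hs2]
  rfl

/-- the constant function one -/
theorem mult_one : Mult fun n => if n = 0 then 0 else 1 where
  zero := by simp
  one := by simp
  nonneg := fun n => by split_ifs <;> norm_num
  mul := fun m n _ => by
    rcases eq_or_ne m 0 with rfl | hm
    · simp
    · rcases eq_or_ne n 0 with rfl | hn
      · simp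
      · simp [hm, hn]
  le := fun p e hp => by
    rw [if_neg (pow_ne_zero _ hp.ne_zero)]
    have : (0 : ℝ) ≤ e := Nat.cast_nonneg e
    nlinarith

/-- **Comparison with zeta.** If `(s - 1) ∑ g(n) n^{-s} → c > 0` then
`∑_p (g(p) - 1) p^{-s}` converges for `s → 1+`. -/
theorem Mult.psum_limit (hg : Mult g) (hsum : ∀ s : ℝ, 1 < s → Summable fun n : ℕ => g n * (n : ℝ) ^ (-s))
    {c : ℝ} (hc : 0 < c)
    (h : Tendsto (fun s : ℝ => (s - 1) * ∑' n : ℕ, g n * (n : ℝ) ^ (-s)) (𝓝[>] 1) (𝓝 c)) :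
    ∃ C : ℝ, Tendsto (fun s : ℝ => psum g s - psum (fun n => if n = 0 then 0 else 1) s)
      (𝓝[>] 1) (𝓝 C) := by
  classical
  have h1 := mult_one
  have hz : Tendsto (fun s : ℝ => (s - 1) * ∑' n : ℕ, (if n = 0 then (0 : ℝ) else 1) * (n : ℝ) ^ (-s))
      (𝓝[>] 1) (𝓝 1) := by
    refine tendsto_sub_mul_tsum_nat_rpow.congr' ?_
    filter_upwards [self_mem_nhdsWithin] with s hs
    have hs1 : (1 : ℝ) < s := hs
    congr 1
    refine tsum_congr fun n => ?_
    rcases eq_or_ne n 0 with rfl | hn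
    · simp only [if_true, zero_mul, Nat.cast_zero]
      rw [Real.zero_rpow (by linarith), div_zero]
    · rw [if_neg hn, one_mul, Real.rpow_neg (Nat.cast_nonneg _), one_div]
  have hz1 : ∀ s : ℝ, 1 < s → Summable fun n : ℕ => (if n = 0 then (0 : ℝ) else 1) * (n : ℝ) ^ (-s) := by
    intro s hs
    refine Summable.of_nonneg_of_le (fun n => ?_) (fun n => ?_)
      (Real.summable_nat_rpow.mpr (show -s < -1 by linarith))
    · split_ifs <;> positivity
    · split_ifs
      · rw [zero_mul]; positivity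
      · rw [one_mul]
  refine ⟨(Real.log c - ∑' p : ℕ, ct g 1 p) -
    (Real.log 1 - ∑' p : ℕ, ct (fun n => if n = 0 then 0 else 1) 1 p), ?_⟩
  have h2 := ((h.log hc.ne').sub hg.ct_tendsto).sub ((hz.log one_ne_zero).sub h1.ct_tendsto)
  refine h2.congr' ?_
  filter_upwards [self_mem_nhdsWithin] with s hs
  have hs1 : (1 : ℝ) < s := hs
  have hs0 : s - 1 ≠ 0 := by
    have : 0 < s - 1 := by linarith
    exact this.ne'
  have pos : ∀ {g : ℕ → ℝ}, Mult g → (Summable fun n : ℕ => g n * (n : ℝ) ^ (-s)) →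
      0 < ∑' n : ℕ, g n * (n : ℝ) ^ (-s) := by
    intro g hg hs'
    have : g 1 * ((1 : ℕ) : ℝ) ^ (-s) ≤ ∑' n : ℕ, g n * (n : ℝ) ^ (-s) :=
      hs'.le_tsum 1 fun n _ => mul_nonneg (hg.nonneg _) (by positivity)
    rw [hg.one] at this
    simp at this
    linarith
  rw [Real.log_mul hs0 (pos hg (hsum s hs1)).ne', Real.log_mul hs0 (pos h1 (hz1 s hs1)).ne',
    hg.log_series hs1 (hsum s hs1), h1.log_series hs1 (hz1 s hs1)]
  ring

end Pool.Agent.TH941
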